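import Mathlib

set_option autoImplicit false
open Complex ComplexConjugate Finset

namespace Pool.Agent.H.MP_51cccb_an

lemma ang {u v : ℂ} {η : ℝ} (η0 : 0 < η) (hu : η ≤ u.re) (hv : η ≤ v.re) :
    η / ‖u‖ + η / ‖v‖ ≤ ‖u * v / (‖u‖ * ‖v‖ : ℝ) + 1‖ := by
  have pu : 0 < ‖u‖ := η0.trans_le (hu.trans (re_le_norm u))
  have pv : 0 < ‖v‖ := η0.trans_le (hv.trans (re_le_norm v))
  have nu : (‖u‖ : ℂ) ≠ 0 := ofReal_ne_zero.2 pu.ne'
  have nv : (‖v‖ : ℂ) ≠ 0 := ofReal_ne_zero.2 pv.ne'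
  have e : u * v / (‖u‖ * ‖v‖ : ℝ) + 1 = u / ‖u‖ * (conj u / ‖u‖ + v / ‖v‖) := by
    have := mul_conj' u
    push_cast
    field_simp
    linear_combination (-‖v‖ : ℂ) * this
  rw [e, norm_mul, norm_div, norm_real, norm_norm, div_self pu.ne', one_mul]
  refine le_trans ?_ (re_le_norm _)
  rw [add_re, div_ofReal_re, div_ofReal_re, conj_re]
  gcongr

lemma mul1 {a b : ℂ} {x y : ℝ} (ha : ‖a - 1‖ ≤ x) (hb : ‖b - 1‖ ≤ y) :
    ‖a * b - 1‖ ≤ x + y + x * y := by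
  rw [show a * b - 1 = (a - 1) + (b - 1) + (a - 1) * (b - 1) by ring]
  refine norm_add₃_le.trans ?_
  rw [norm_mul]
  gcongr
  exact (norm_nonneg _).trans ha

lemma core {u v φ E ν : ℂ} {η τ : ℝ} (η0 : 0 < η) (hu : η ≤ u.re) (hv : η ≤ v.re) (ν0 : ν ≠ 0)
    (ν1 : ‖ν‖ ≤ 1) (h1 : ‖1 - v‖ ≤ 1) (h2 : ‖1 + u / ν‖ ≤ 8)
    (h3 : ‖φ - 1‖ ≤ (η / ‖u‖ + η / ‖v‖) / 1000 + τ) (h4 : ‖E‖ ≤ τ) (h5 : τ ≤ 1 / 100)
    (h6 : 5000 * ‖ν‖ * τ ^ 2 ≤ η) :
    φ * (-((η / 1000 * ‖ν‖ : ℝ) * (1 - v) * (1 + u / ν) / (u * v)) + E) ≠ 1 := by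
  intro h
  have pu : 0 < ‖u‖ := η0.trans_le (hu.trans (re_le_norm u))
  have pv : 0 < ‖v‖ := η0.trans_le (hv.trans (re_le_norm v))
  have pν := norm_pos_iff.2 ν0
  have τ0 := (norm_nonneg _).trans h4
  have a0 := ang η0 hu hv
  obtain ⟨x, hx⟩ : ∃ x, x = η / ‖u‖ := ⟨_, rfl⟩
  obtain ⟨y, hy⟩ : ∃ y, y = η / ‖v‖ := ⟨_, rfl⟩
  have x0 : 0 < x := by rw [hx]; positivity
  have y0 : 0 < y := by rw [hy]; positivity
  have x1 : x ≤ 1 := hx ▸ (div_le_one pu).2 (hu.trans (re_le_norm u))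
  have y1 : y ≤ 1 := hy ▸ (div_le_one pv).2 (hv.trans (re_le_norm v))
  have ex : x * ‖u‖ = η := by rw [hx]; field_simp
  have ey : y * ‖v‖ = η := by rw [hy]; field_simp
  rw [← hx, ← hy] at h3 a0
  have p1 : ‖φ‖ ≤ 1.012 := by linarith [norm_sub_norm_le φ 1, norm_one (α := ℂ)]
  obtain ⟨s, hs⟩ : ∃ s, s = η / 1000 * ‖ν‖ / (‖u‖ * ‖v‖) := ⟨_, rfl⟩
  have s0 : 0 < s := by rw [hs]; positivity
  have es : s * (‖u‖ * ‖v‖) = η / 1000 * ‖ν‖ := by rw [hs]; field_simp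
  rcases le_total s (1 / 20) with c | c
  · have b1 : ‖-(((η / 1000 * ‖ν‖ : ℝ) : ℂ) * (1 - v) * (1 + u / ν) / (u * v))‖ ≤ s * 1 * 8 := by
      rw [norm_neg, norm_div, norm_mul, norm_mul, norm_mul, norm_real,
        Real.norm_of_nonneg (by positivity), mul_assoc, mul_div_right_comm, ← hs, ← mul_assoc]
      gcongr
    have b2 := congrArg norm h
    rw [norm_mul, norm_one] at b2
    have b3 := (norm_add_le _ _).trans (add_le_add b1 h4)
    nlinarith only [b2, b3, p1, c, h5, norm_nonneg φ, mul_le_mul_of_nonneg_left b3 (norm_nonneg φ)]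
  have b1 : ‖u‖ * ‖v‖ ≤ η * ‖ν‖ / 50 := by nlinarith only [es, c, mul_pos pu pv]
  have b2 : ‖(1 + u / ν) - 1‖ ≤ (x + y) / 50 := by
    rw [add_sub_cancel_left, norm_div, div_le_iff₀ pν]
    refine le_of_mul_le_mul_right ?_ pv
    nlinarith only [b1, congrArg (· * ‖ν‖) ey, mul_pos (mul_pos x0 pν) pv]
  have b3 : ‖(1 - v) - 1‖ ≤ (x + y) / 50 := by
    rw [sub_sub_cancel_left, norm_neg]
    refine le_of_mul_le_mul_right ?_ pu
    nlinarith only [b1, ex, mul_pos y0 pu, mul_le_mul_of_nonneg_left ν1 η0.le]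
  have b4 : τ ≤ (x + y) / 1000 := by
    refine le_of_pow_le_pow_left₀ two_ne_zero (by positivity) ?_
    have c1 : 50 * η ≤ x * y * ‖ν‖ := by
      refine le_of_mul_le_mul_right ?_ η0
      have : η * η = x * y * (‖u‖ * ‖v‖) := by rw [← mul_mul_mul_comm, ex, ey]
      nlinarith only [this, mul_le_mul_of_nonneg_left b1 (mul_pos x0 y0).le]
    refine le_of_mul_le_mul_right ?_ pν
    nlinarith only [c1, h6, mul_nonneg (sq_nonneg (x - y)) pν.le]
  have b5 := mul1 (mul1 (h3.trans (add_le_add le_rfl b4)) b3) b2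
  have b6 : ‖φ * E‖ ≤ (x + y) / 20 := by
    rw [norm_mul]
    nlinarith only [mul_le_mul p1 (h4.trans b4) (norm_nonneg _) (by norm_num), x0, y0]
  obtain ⟨t, ht⟩ : ∃ t, t = x + y := ⟨_, rfl⟩
  rw [← ht] at b5 b6 a0
  have t0 : 0 < t := by linarith
  have t2 : t ≤ 2 := by linarith
  have b7 := b5.trans (show _ ≤ t / 20 by nlinarith only [t0, t2, mul_pos t0 t0])
  obtain ⟨w, hw⟩ : ∃ w, w = u * v / (‖u‖ * ‖v‖ : ℝ) := ⟨_, rfl⟩
  have w1 : ‖w‖ = 1 := by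
    rw [hw, norm_div, norm_mul, norm_real, Real.norm_of_nonneg (by positivity), div_self (by positivity)]
  have e : w * (1 - φ * E) = -(s * (φ * (1 - v) * (1 + u / ν))) := by
    have nu : (‖u‖ : ℂ) ≠ 0 := ofReal_ne_zero.2 pu.ne'
    have nv : (‖v‖ : ℂ) ≠ 0 := ofReal_ne_zero.2 pv.ne'
    have := norm_pos_iff.1 pu
    have := norm_pos_iff.1 pv
    rw [eq_sub_of_add_eq ((mul_add _ _ _).symm.trans h) |>.symm, hw, hs]
    push_cast
    field_simp
  rw [← hw] at a0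
  generalize φ * (1 - v) * (1 + u / ν) = B at e b7
  generalize φ * E = A at e b6
  have c1 := congrArg norm e
  rw [norm_mul, w1, norm_neg, norm_mul, norm_real, Real.norm_of_nonneg s0.le, one_mul] at c1
  have c2 := abs_le.1 ((abs_norm_sub_norm_le B 1).trans b7)
  have c3 := abs_le.1 ((abs_norm_sub_norm_le (1 - A) 1).trans (by simpa using b6))
  rw [norm_one] at c2 c3
  have c4 : ‖w + 1‖ ≤ |1 - s| + s * (t / 20) + t / 20 := by
    rw [show w + 1 = ((1 - s : ℝ) : ℂ) + -(s * (B - 1)) + w * A by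
      push_cast; linear_combination e]
    refine norm_add₃_le.trans ?_
    rw [norm_neg, norm_mul, norm_mul, w1, one_mul, norm_real, norm_real, Real.norm_of_nonneg s0.le]
    gcongr
    rfl
  have c5 : s ≤ 2 := by nlinarith only [c1, c2, c3, t2, s0]
  have c6 : |1 - s| ≤ s * (t / 20) + t / 20 := abs_le.2 ⟨by nlinarith only [c1, c2, c3, s0],
    by nlinarith only [c1, c2, c3, s0]⟩
  nlinarith only [a0, c4, c5, c6, t0]

lemma orth {K : ℕ} {x y : ℂ} (hx : x ^ K = 1) (hy : y ^ K = 1) (y1 : ‖y‖ = 1) :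
    ∑ k ∈ Ico K (2 * K), x ^ k * conj (y ^ k) = if x = y then (K : ℂ) else 0 := by
  have e : y * conj y = 1 := by rw [mul_conj', y1]; simp
  simp only [map_pow, ← mul_pow]
  split_ifs with h
  · simp [h, e, two_mul]
  · have : (x * conj y) ^ K = 1 := by rw [mul_pow, ← map_pow, hx, hy]; simp
    rw [geom_sum_Ico (fun c => h (by linear_combination y * c - x * e)) (by omega), two_mul,
      pow_add, this]
    simp

lemma l2 {ι : Type*} (s : Finset ι) {K : ℕ} (c x : ι → ℂ) (hx : ∀ i ∈ s, x i ^ K = 1)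
    (x1 : ∀ i, ‖x i‖ = 1) :
    ((∑ k ∈ Ico K (2 * K), ‖∑ i ∈ s, c i * x i ^ k‖ ^ 2 : ℝ) : ℂ) =
      ∑ i ∈ s, ∑ j ∈ s, c i * conj (c j) * if x i = x j then (K : ℂ) else 0 := by
  push_cast
  simp only [← mul_conj', map_sum, sum_mul_sum, map_mul]
  rw [sum_comm]
  refine sum_congr rfl fun i hi => ?_
  rw [sum_comm]
  refine sum_congr rfl fun j hj => ?_
  rw [← orth (hx i hi) (hx j hj) (x1 j), mul_sum]
  exact sum_congr rfl fun k _ => by ring

lemma l1 (s : Finset ℕ) {K : ℕ} (c x : ℕ → ℂ) (hx : ∀ i ∈ s, x i ^ K = 1)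
    (x1 : ∀ i, ‖x i‖ = 1) (c1 : ∀ i, ‖c i‖ = 1) (hi : ∀ i j, x i = x j → i = j)
    (hs : ∀ i j k l, x i * x j = x k * x l → (i = k ∧ j = l) ∨ (i = l ∧ j = k)) {q : ℝ}
    (q0 : 0 < q) (hq : q ^ 2 = #s) :
    K * q / 2 ≤ ∑ k ∈ Ico K (2 * K), ‖∑ i ∈ s, c i * x i ^ k‖ := by
  have a1 : ∑ k ∈ Ico K (2 * K), ‖∑ i ∈ s, c i * x i ^ k‖ ^ 2 = K * q ^ 2 := by
    refine ofReal_injective ((l2 s c x hx x1).trans ?_)
    rw [hq, sum_congr rfl (g := fun _ => (K : ℂ)) fun i h => ?_]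
    · simp [mul_comm]
    · rw [sum_eq_single_of_mem i h fun j _ e => by rw [if_neg fun c => e (hi _ _ c).symm, mul_zero],
        mul_conj', c1]
      simp
  have a2 : ∑ k ∈ Ico K (2 * K), ‖∑ i ∈ s, c i * x i ^ k‖ ^ 4 ≤ 2 * K * q ^ 4 := by
    have b := l2 (s ×ˢ s) (K := K) (fun p => c p.1 * c p.2) (fun p => x p.1 * x p.2)
      (fun p hp => by rw [mul_pow, hx _ (mem_product.1 hp).1, hx _ (mem_product.1 hp).2, one_mul])
      (fun p => by rw [norm_mul, x1, x1, one_mul])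
    have e : ∀ k, ‖∑ i ∈ s, c i * x i ^ k‖ ^ 4 =
        ‖∑ p ∈ s ×ˢ s, c p.1 * c p.2 * (x p.1 * x p.2) ^ k‖ ^ 2 := fun k => by
      rw [show 4 = 2 * 2 by rfl, pow_mul, ← norm_pow, sq (∑ i ∈ s, _), sum_mul_sum, ← sum_product']
      congr 2
      exact sum_congr rfl fun p _ => by ring
    simp only [e]
    refine (le_abs_self _).trans ?_
    rw [← Real.norm_eq_abs, ← norm_real, b]
    refine (norm_sum_le _ _).trans ((sum_le_card_nsmul _ _ (2 * K : ℝ) fun p _ => ?_).trans ?_)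
    · refine (norm_sum_le _ _).trans ((sum_le_sum (g := fun r => (if p = r then (K : ℝ) else 0) +
        if p.swap = r then (K : ℝ) else 0) fun r _ => ?_).trans ?_)
      · rw [norm_mul, norm_mul, RCLike.norm_conj, norm_mul, norm_mul, c1, c1, c1, c1]
        by_cases h : x p.1 * x p.2 = x r.1 * x r.2
        · rw [if_pos h]
          rcases hs _ _ _ _ h with e | e
          · rw [if_pos (Prod.ext e.1 e.2)]
            simp only [mul_one, one_mul, Complex.norm_natCast, le_add_iff_nonneg_right]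
            positivity
          · rw [if_pos (Prod.ext e.2 e.1 : p.swap = r)]
            simp only [mul_one, one_mul, Complex.norm_natCast, le_add_iff_nonneg_left]
            positivity
        · rw [if_neg h, norm_zero, mul_zero]
          positivity
      · rw [sum_add_distrib, sum_ite_eq, sum_ite_eq, two_mul]
        gcongr <;> split_ifs <;> simp
    · rw [card_product, nsmul_eq_mul, show q ^ 4 = q ^ 2 * q ^ 2 by ring, hq]
      push_cast
      linarith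
  have a3 := sum_le_sum (s := Ico K (2 * K))
    (f := fun k => q ^ 2 * ‖∑ i ∈ s, c i * x i ^ k‖ ^ 2 - 1 / 4 * ‖∑ i ∈ s, c i * x i ^ k‖ ^ 4)
    (g := fun k => q ^ 3 * ‖∑ i ∈ s, c i * x i ^ k‖) fun k _ => by
      have y0 := norm_nonneg (∑ i ∈ s, c i * x i ^ k)
      generalize ‖∑ i ∈ s, c i * x i ^ k‖ = y at y0
      nlinarith [mul_nonneg y0 (mul_nonneg (sq_nonneg (y - q)) (add_nonneg y0 (by linarith : 0 ≤ 2 * q))),
        mul_nonneg (mul_nonneg y0 q0.le) (sq_nonneg (y - q)), mul_nonneg (mul_nonneg y0 y0) (sq_nonneg q),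
        mul_nonneg y0 (pow_pos q0 3).le, sq_nonneg (y ^ 2 - 2 * q ^ 2), sq_nonneg (y * (y - q))]
  rw [sum_sub_distrib, ← mul_sum, ← mul_sum, ← mul_sum, a1] at a3
  refine le_of_mul_le_mul_left ?_ (pow_pos q0 3)
  nlinarith only [a2, a3]

end Pool.Agent.H.MP_51cccb_an
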