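import Pool.Agent.H.MP_51cccb_an.A

set_option autoImplicit false
open Complex ComplexConjugate Finset

namespace Pool.Agent.H.MP_51cccb_an

def ell (j : ℕ) : ℕ := (Nat.sqrt (j + 121) + 1) ^ 2
noncomputable def θ (j : ℕ) : ℝ := 2 * Real.pi / 64 ^ (j + 121)
noncomputable def η (j : ℕ) : ℝ := 1 / 8 ^ (5 * ell j)
noncomputable def x (j : ℕ) : ℂ := exp (I * θ j)
noncomputable def lam (j : ℕ) : ℂ := ((1 - η j : ℝ) : ℂ) * x j
noncomputable def a (j : ℕ) : ℂ := (η j / 1000 * ‖lam j - 1‖ : ℝ) * lam j / (lam j - 1)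
noncomputable def u (j : ℕ) (z : ℂ) : ℂ := 1 - lam j * z
noncomputable def P (z : ℂ) : ℂ := ∑' j, a j * (lam j * z / u j z)

lemma θ0 (j : ℕ) : 0 < θ j := by have := Real.pi_pos; rw [θ]; positivity
lemma η0 (j : ℕ) : 0 < η j := by rw [η]; positivity
lemma x1 (j : ℕ) : ‖x j‖ = 1 := norm_exp_I_mul_ofReal _
lemma ell_gt (j : ℕ) : j + 121 < ell j := Nat.lt_succ_sqrt' _

lemma θ1 (j : ℕ) : θ j ≤ 1 / 2 := by
  rw [θ, div_le_iff₀ (by positivity)]
  have : (64 : ℝ) ^ 1 ≤ 64 ^ (j + 121) := pow_le_pow_right₀ (by norm_num) (by omega)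
  linarith [Real.pi_le_four]

lemma ηθ (j : ℕ) : 36 * η j ≤ θ j ^ 2 * (1 / 8) ^ j := by
  have a1 : η j ≤ 1 / (64 ^ (j + 121)) ^ 2 * (1 / 8) ^ j := by
    rw [η, show (64 : ℝ) = 8 ^ 2 by norm_num, ← pow_mul, ← pow_mul, one_div_pow, div_mul_div_comm,
      ← pow_add, one_mul]
    exact one_div_le_one_div_of_le (by positivity) (pow_le_pow_right₀ (by norm_num)
      (by have := ell_gt j; omega))
  have a2 : 36 ≤ (2 * Real.pi) ^ 2 := by nlinarith [Real.pi_gt_three]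
  rw [θ, div_pow, div_eq_mul_one_div ((2 * Real.pi) ^ 2), mul_assoc]
  exact mul_le_mul a2 a1 (η0 j).le (by positivity)

lemma p8 (j : ℕ) : (1 / 8 : ℝ) ^ j ≤ 1 := pow_le_one₀ (by norm_num) (by norm_num)

lemma η1 (j : ℕ) : η j ≤ θ j / 72 := by
  nlinarith [ηθ j, θ1 j, θ0 j, mul_le_mul_of_nonneg_left (p8 j) (sq_nonneg (θ j))]

lemma η2 (j : ℕ) : η j ≤ (1 / 8) ^ j := by
  have : θ j ^ 2 ≤ 1 := by nlinarith [θ1 j, θ0 j]
  nlinarith [ηθ j, pow_pos (show (0 : ℝ) < 1 / 8 by norm_num) j]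

lemma θη (j : ℕ) : θ j ^ 3 ≤ η j := by
  have a1 : 5 * ell j + 3 ≤ 6 * (j + 121) := by
    have b1 := Nat.sqrt_le' (j + 121)
    have b2 : 11 ≤ Nat.sqrt (j + 121) := Nat.le_sqrt'.2 (by omega)
    rw [ell]
    nlinarith
  have a2 : (2 * Real.pi) ^ 3 ≤ 8 ^ 3 :=
    pow_le_pow_left₀ (by positivity) (by linarith [Real.pi_le_four]) 3
  rw [θ, η, div_pow, div_le_div_iff₀ (by positivity) (by positivity),
    show (64 : ℝ) = 8 ^ 2 by norm_num, ← pow_mul, ← pow_mul, one_mul]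
  refine (mul_le_mul_of_nonneg_right a2 (by positivity)).trans ?_
  rw [← pow_add]
  exact pow_le_pow_right₀ (by norm_num) (by omega)

lemma lam1 (j : ℕ) : ‖lam j‖ = 1 - η j := by
  rw [lam, norm_mul, x1, mul_one, norm_real, Real.norm_of_nonneg (by linarith [η1 j, θ1 j])]

lemma nu (j : ℕ) : θ j / 2 ≤ ‖lam j - 1‖ ∧ ‖lam j - 1‖ ≤ 2 * θ j := by
  have a1 : ‖x j - 1‖ ≤ θ j := Real.norm_exp_I_mul_ofReal_sub_one_le.trans
    (Real.norm_of_nonneg (θ0 j).le).le
  have a2 : 0.6 * θ j ≤ ‖x j - 1‖ := by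
    rw [x, norm_exp_I_mul_ofReal_sub_one, norm_mul, Real.norm_two, Real.norm_eq_abs]
    have h := half_pos (θ0 j)
    have := Real.mul_abs_le_abs_sin (x := θ j / 2) (by
      rw [abs_of_pos h]; linarith [Real.pi_gt_three, θ1 j])
    rw [abs_of_pos h] at this
    have h2 : (0.6 : ℝ) ≤ 2 / Real.pi := by
      rw [le_div_iff₀ Real.pi_pos]; linarith [Real.pi_lt_d2]
    nlinarith
  have a3 := abs_norm_sub_norm_le (lam j - 1) (x j - 1)
  rw [show lam j - 1 - (x j - 1) = -(η j * x j) by rw [lam]; push_cast; ring, norm_neg, norm_mul,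
    x1, norm_real, Real.norm_of_nonneg (η0 j).le, mul_one, abs_le] at a3
  constructor <;> linarith [η1 j, θ0 j]

lemma nu0 (j : ℕ) : lam j - 1 ≠ 0 := norm_pos_iff.1 ((half_pos (θ0 j)).trans_le (nu j).1)

lemma a_eq (j : ℕ) : ‖a j‖ = η j / 1000 * (1 - η j) := by
  have := norm_pos_iff.2 (nu0 j)
  have := η0 j
  rw [a, norm_div, norm_mul, norm_real, Real.norm_of_nonneg (by positivity), lam1]
  field_simp

lemma a1 (j : ℕ) : ‖a j‖ ≤ η j / 1000 := by rw [a_eq]; nlinarith [η0 j]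

lemma θ_lt {i j : ℕ} (h : i < j) : θ j ≤ θ i / 64 := by
  rw [θ, θ, div_div, ← pow_succ]
  exact div_le_div_of_nonneg_left (by positivity) (by positivity)
    (pow_le_pow_right₀ (by norm_num) (by omega))

lemma pick (σ : ℝ) : ∃ i, ∀ j ≠ i, σ < θ j / 4 ∨ 4 * θ j < σ := by
  by_cases h : ∃ i, θ i / 4 ≤ σ ∧ σ ≤ 4 * θ i
  · obtain ⟨i, h1, h2⟩ := h
    refine ⟨i, fun j hj => ?_⟩
    rcases lt_or_gt_of_ne hj with e | e
    · left; linarith [θ_lt e, θ0 j]
    · right; linarith [θ_lt e, θ0 i]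
  · exact ⟨0, fun j _ => by
      by_contra c
      rw [not_or, not_lt, not_lt] at c
      exact h ⟨j, c⟩⟩

section
variable {z : ℂ} (hz : ‖z‖ < 1)
include hz

lemma lz (j : ℕ) : ‖lam j * z‖ ≤ 1 - η j ∧ ‖lam j * z‖ ≤ ‖z‖ := by
  rw [norm_mul, lam1]
  constructor <;> nlinarith [η0 j, η1 j, θ1 j, norm_nonneg z]

lemma u_re (j : ℕ) : η j ≤ (u j z).re := by
  have := re_le_norm (lam j * z)
  rw [u, sub_re, one_re]
  linarith [(lz hz j).1]

lemma u0 (j : ℕ) : 0 < ‖u j z‖ := (η0 j).trans_le ((u_re hz j).trans (re_le_norm _))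

omit hz in
lemma u_far {j : ℕ} (h : ‖1 - z‖ ≤ θ j / 3 ∨ 3 * θ j ≤ ‖1 - z‖) : θ j / 6 ≤ ‖u j z‖ := by
  have a3 := abs_norm_sub_norm_le (lam j * (1 - z)) (lam j - 1)
  rw [show lam j * (1 - z) - (lam j - 1) = u j z by rw [u]; ring, norm_mul, lam1, abs_le] at a3
  have := nu j
  rcases h with h | h <;> nlinarith [η0 j, η1 j, θ1 j, θ0 j, norm_nonneg (1 - z)]

lemma T_le (j : ℕ) : ‖a j * (lam j * z / u j z)‖ ≤ η j / 1000 / ‖u j z‖ := by
  rw [norm_mul, norm_div, ← mul_div_assoc]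
  refine div_le_div_of_nonneg_right ?_ (norm_nonneg _)
  nlinarith [a1 j, (lz hz j).2, norm_nonneg (a j), norm_nonneg (lam j * z)]

lemma T_le' {r : ℝ} (h : ‖z‖ ≤ r) (r1 : r < 1) (j : ℕ) :
    ‖a j * (lam j * z / u j z)‖ ≤ (1 / 8) ^ j / (1 - r) := by
  refine (T_le hz j).trans (div_le_div₀ (by positivity) (by linarith [η2 j, η0 j]) (by linarith) ?_)
  have := norm_sub_norm_le 1 (lam j * z)
  rw [norm_one] at this
  rw [u]
  linarith [(lz hz j).2]

omit hz in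
lemma geo : HasSum (fun j : ℕ => (1 / 8 : ℝ) ^ j) (8 / 7) := by
  have := hasSum_geometric_of_lt_one (r := 1 / 8) (by norm_num) (by norm_num)
  norm_num at this ⊢
  exact this

lemma T_sum : Summable fun j => a j * (lam j * z / u j z) :=
  Summable.of_norm_bounded (geo.summable.div_const _) (T_le' hz le_rfl hz)

lemma P_le : ‖P z‖ ≤ 1 / 100 := by
  obtain ⟨i, hi⟩ := pick ‖1 - z‖
  refine (tsum_of_norm_bounded ((hasSum_ite_eq i (1 / 1000 : ℝ)).add (geo.div_const 1000))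
    fun j => (T_le hz j).trans ?_).trans (by norm_num)
  split_ifs with h
  · rw [div_right_comm]
    have := (div_le_one (u0 hz j)).2 ((u_re hz j).trans (re_le_norm _))
    have : 0 < (1 / 8 : ℝ) ^ j := by positivity
    linarith
  · have := u_far (z := z) (j := j) ((hi j h).imp (fun e => by linarith [θ0 j])
      fun e => by linarith [θ0 j])
    rw [zero_add, div_le_iff₀ (u0 hz j)]
    have p : 0 < (1 / 8 : ℝ) ^ j := by positivity
    nlinarith [ηθ j, mul_le_mul_of_nonneg_left this p.le, θ1 j, mul_pos p (θ0 j)]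

end

theorem inj {z y : ℂ} (hz : ‖z‖ < 1) (hy : ‖y‖ < 1)
    (e : z / (1 - z) * exp (P z) = y / (1 - y) * exp (P y)) : z = y := by
  by_contra ne
  have n1 : ∀ z : ℂ, ‖z‖ < 1 → 1 - z ≠ 0 := fun z hz c => by
    rw [← sub_eq_zero.1 c] at hz; simp at hz
  obtain ⟨t, ht⟩ : ∃ t, t = P y - P z := ⟨_, rfl⟩
  have t1 : ‖t‖ ≤ 1 / 50 := by linarith [ht ▸ norm_sub_le (P y) (P z), P_le hz, P_le hy]
  have e1 : z - y = y * (1 - z) * (exp t - 1) := by
    have := n1 z hz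
    have := n1 y hy
    have := exp_ne_zero (P z)
    rw [ht, exp_sub]
    field_simp at e ⊢
    linear_combination e
  have t0 : t ≠ 0 := fun c => ne (by simpa [c, sub_eq_zero] using e1)
  have d1 : ‖z - y‖ ≤ ‖1 - z‖ / 10 := by
    have := norm_exp_sub_one_le (x := t) (by linarith)
    rw [e1, norm_mul, norm_mul]
    nlinarith [mul_le_mul hy.le (this.trans (by linarith : 2 * ‖t‖ ≤ 1 / 10)) (norm_nonneg _) zero_le_one,
      norm_nonneg (1 - z)]
  have d2 := abs_norm_sub_norm_le (1 - y) (1 - z)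
  rw [sub_sub_sub_cancel_left, abs_le] at d2
  obtain ⟨φ, hφ⟩ : ∃ φ, φ = (exp t - 1) / t := ⟨_, rfl⟩
  have φ1 : ‖φ - 1‖ ≤ ‖t‖ := by
    rw [hφ, div_sub_one t0, norm_div, div_le_iff₀ (norm_pos_iff.2 t0), ← sq]
    exact norm_exp_sub_one_sub_id_le (by linarith)
  set D : ℕ → ℂ := fun j => a j * lam j / (u j z * u j y) with hD
  have zy : y - z ≠ 0 := sub_ne_zero.2 (Ne.symm ne)
  have hs : HasSum D (t / (y - z)) := by
    have : D = fun j => (a j * (lam j * y / u j y) - a j * (lam j * z / u j z)) / (y - z) :=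
      funext fun j => by
        have m1 := norm_pos_iff.1 (u0 hz j)
        have m2 := norm_pos_iff.1 (u0 hy j)
        simp only [hD]
        field_simp
        simp only [u]
        ring
    rw [this, ht]
    exact ((T_sum hy).hasSum.sub (T_sum hz).hasSum).div_const (y - z)
  have far : ∀ j, ‖1 - z‖ < θ j / 4 ∨ 4 * θ j < ‖1 - z‖ → ‖D j‖ ≤ (1 / 8) ^ j / 1000 := fun j h => by
    have b1 := u_far (z := z) (j := j) (h.imp (fun e => by linarith [θ0 j])
      fun e => by linarith [θ0 j])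
    have b2 := u_far (z := y) (j := j) (h.imp (fun e => by linarith [θ0 j])
      fun e => by linarith [θ0 j])
    have b3 := mul_le_mul b1 b2 (by linarith [θ0 j]) (norm_nonneg _)
    have p : 0 < (1 / 8 : ℝ) ^ j := by positivity
    rw [hD, norm_div, norm_mul, norm_mul, lam1, div_le_iff₀ (mul_pos (u0 hz j) (u0 hy j))]
    nlinarith [ηθ j, mul_le_mul_of_nonneg_left b3 p.le, a1 j, mul_nonneg (norm_nonneg (a j)) (η0 j).le]
  obtain ⟨i, hi⟩ := pick ‖1 - z‖
  have s1 := hs.tsum_eq.symm.trans (hs.summable.tsum_eq_add_tsum_ite i)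
  have s2 : ‖∑' j, if j = i then 0 else D j‖ ≤ 8 / 7 / 1000 :=
    tsum_of_norm_bounded (geo.div_const 1000) fun j => by
      split_ifs with h
      · rw [norm_zero]; positivity
      · exact far j (hi j h)
  generalize (∑' j, if j = i then 0 else D j) = S at s1 s2
  rw [div_eq_iff zy] at s1
  have e2 : φ * (-(y * (1 - z) * D i) + -(y * (1 - z) * S)) = 1 := by
    refine mul_right_cancel₀ zy ?_
    have : φ * t = exp t - 1 := by rw [hφ]; field_simp
    linear_combination (y * (1 - z) * φ) * s1 - y * (1 - z) * this + e1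
  have σ2 : ‖1 - z‖ ≤ 2 := by linarith [norm_sub_le 1 z, norm_one (α := ℂ)]
  have yσ : ‖y * (1 - z)‖ ≤ ‖1 - z‖ := by rw [norm_mul]; nlinarith [norm_nonneg (1 - z)]
  by_cases c : ‖1 - z‖ < θ i / 4 ∨ 4 * θ i < ‖1 - z‖
  · have b1 := congrArg norm e2
    have b2 : ‖φ‖ ≤ 2 := by linarith [norm_sub_norm_le φ 1, norm_one (α := ℂ)]
    have b3 : ‖D i + S‖ ≤ 1 / 100 := by linarith [norm_add_le (D i) S, far i c, p8 i]
    rw [← neg_add, ← mul_add, norm_mul, norm_neg, norm_mul, norm_one] at b1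
    nlinarith [mul_le_mul b2 (mul_le_mul (yσ.trans σ2) b3 (norm_nonneg _) two_pos.le)
      (by positivity) two_pos.le]
  rw [not_or, not_lt, not_lt] at c
  have m1 := norm_pos_iff.1 (u0 hz i)
  have m2 := norm_pos_iff.1 (u0 hy i)
  have m3 := nu0 i
  have e3 : 1 + u i z / (lam i - 1) = lam i * (1 - z) / (lam i - 1) := by
    rw [u]; field_simp; ring
  refine core (η0 i) (u_re hz i) (u_re hy i) m3 (by linarith [(nu i).2, θ1 i]) (φ := φ)
    (E := -(y * (1 - z) * S)) (τ := θ i / 100) ?_ ?_ (φ1.trans ?_) ?_ (by linarith [θ1 i]) ?_ ?_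
  · rw [u, sub_sub_cancel]
    linarith [(lz hy i).2]
  · rw [e3, norm_div, norm_mul, lam1, div_le_iff₀ (norm_pos_iff.2 m3)]
    nlinarith [(nu i).1, η0 i, norm_nonneg (1 - z)]
  · have : t = a i * (1 / u i y) + -(a i * (1 / u i z)) + S * (y - z) := by
      rw [s1, hD]
      simp only
      field_simp
      simp only [u]
      ring
    rw [this]
    refine norm_add₃_le.trans ?_
    rw [norm_neg, norm_mul, norm_mul, norm_mul, norm_div, norm_div, norm_one, norm_sub_rev y,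
      div_eq_mul_one_div (η i) ‖u i z‖, div_eq_mul_one_div (η i) ‖u i y‖]
    nlinarith [mul_le_mul_of_nonneg_right (a1 i) (one_div_pos.2 (u0 hz i)).le,
      mul_le_mul_of_nonneg_right (a1 i) (one_div_pos.2 (u0 hy i)).le,
      mul_le_mul s2 d1 (norm_nonneg _) (by norm_num), θ0 i]
  · rw [norm_neg, norm_mul]
    nlinarith [mul_le_mul yσ s2 (norm_nonneg _) (norm_nonneg _), θ0 i]
  · nlinarith [θη i, mul_le_mul_of_nonneg_right (nu i).2 (sq_nonneg (θ i))]
  · refine Eq.trans ?_ e2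
    rw [e3, hD, show 1 - u i y = lam i * y by rw [u]; ring]
    simp only [a]
    ring

end Pool.Agent.H.MP_51cccb_an
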